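import Pool.Agent.W774.TL.Stm

set_option autoImplicit false

namespace Pool.Agent.W819.TL

open Set Filter Topology Pool.Agent.W774.TL

theorem E_pos (j : ℤ) (x p t : ℝ) : 0 < E j x p t := Real.exp_pos _

theorem E_summable (h1 : P_SUM) (x p t : ℝ) : Summable (fun j : ℤ => E j x p t) := by
  obtain ⟨u, hu, hle⟩ := h1 0 |p|
  refine Summable.of_nonneg_of_le (fun j => (E_pos j x p t).le) (fun j => ?_) hu
  have := hle j x p t le_rfl
  simpa using this

theorem E_le_Z (h1 : P_SUM) (j : ℤ) (x p t : ℝ) : E j x p t ≤ Z x p t :=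
  (E_summable h1 x p t).le_tsum j (fun i _ => (E_pos i x p t).le)

theorem Z_pos (h1 : P_SUM) (x p t : ℝ) : 0 < Z x p t :=
  lt_of_lt_of_le (E_pos 0 x p t) (E_le_Z h1 0 x p t)

theorem S_le (u : ℝ) : S u ≤ 1 / 4 := by
  unfold S
  have hpi := Real.pi_gt_three
  rw [div_le_iff₀ (by positivity)]
  have := Real.sin_le_one (2 * Real.pi * u)
  nlinarith

theorem h_ge (h1 : P_SUM) (j : ℤ) (x p t : ℝ) : j * p - 3 ^ j.natAbs ≤ h x p t := by
  unfold h
  rw [Real.le_log_iff_exp_le (Z_pos h1 x p t)]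
  refine le_trans ?_ (E_le_Z h1 j x p t)
  unfold E
  apply Real.exp_le_exp.2
  have h2 : V j x t ≤ 3 ^ j.natAbs := by
    unfold V
    have h3 := S_le (x - j * t)
    have h4 : (0 : ℝ) < 3 ^ j.natAbs := by positivity
    nlinarith
  linarith

theorem sup_thm (h1 : P_SUM) : P_SUP := by
  refine ⟨fun K => ?_, fun R => ?_⟩
  · obtain ⟨j, hj⟩ := exists_nat_ge |K|
    refine ⟨3 ^ j, fun x p t => ?_⟩
    have hK : K * |p| ≤ j * |p| :=
      mul_le_mul_of_nonneg_right ((le_abs_self K).trans hj) (abs_nonneg p)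
    rcases le_total 0 p with hp | hp
    · have := h_ge h1 (j : ℤ) x p t
      rw [abs_of_nonneg hp] at hK ⊢
      simp only [Int.natAbs_natCast, Int.cast_natCast] at this
      linarith
    · have := h_ge h1 (-(j : ℤ)) x p t
      rw [abs_of_nonpos hp] at hK ⊢
      simp only [Int.natAbs_neg, Int.natAbs_natCast, Int.cast_neg, Int.cast_natCast] at this
      linarith
  · obtain ⟨u, hu, hle⟩ := h1 0 R
    refine ⟨Real.log (max 1 (∑' j, u j)), fun x p t hp => ?_⟩
    unfold h
    apply Real.log_le_log (Z_pos h1 x p t)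
    refine le_trans ?_ (le_max_right _ _)
    unfold Z
    refine (E_summable h1 x p t).tsum_le_tsum (fun j => ?_) hu
    have := hle j x p t hp
    simpa using this

end Pool.Agent.W819.TL
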